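import Pool.Agent.H56.Bm1
namespace Pool.Agent.Results.MP_ea8870_an.NonUniform
open MeasureTheory Set Filter Topology
open scoped ENNReal NNReal

/-- The closed cube with centre `z` and side `2 r`, sides parallel to the axes. -/
def cube {n : ℕ} (z : Fin n → ℝ) (r : ℝ) : Set (Fin n → ℝ) := {x | ∀ i, |x i - z i| ≤ r}

/-- The classical John-Nirenberg norm. -/
noncomputable def bmo {n : ℕ} (f : (Fin n → ℝ) → ℝ) : ℝ≥0∞ :=
  ⨆ (z : Fin n → ℝ) (r : ℝ) (_ : 0 < r),
    (∫⁻ x in cube z r, ‖f x - ⨍ y in cube z r, f y‖ₑ) / volume (cube z r)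

/-- `‖f‖_{BMO_X}`, where `ρ z r g` is the quasi-norm of `g` in `X_Q`, `Q = cube z r`. -/
noncomputable def bmoX {n : ℕ} (ρ : (Fin n → ℝ) → ℝ → ((Fin n → ℝ) → ℝ) → ℝ≥0∞)
    (f : (Fin n → ℝ) → ℝ) : ℝ≥0∞ :=
  ⨆ (z : Fin n → ℝ) (r : ℝ) (_ : 0 < r), ρ z r (fun x => f x - ⨍ y in cube z r, f y)

/-- `X_Q = {g measurable : N g < ∞}` with quasi-norm `N` is a quasi-Banach function space
over `Q`. The quasi-triangle constant `K` may depend on `Q`. -/
structure IsQBFS {n : ℕ} (Q : Set (Fin n → ℝ)) (N : ((Fin n → ℝ) → ℝ) → ℝ≥0∞) : Prop where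
  lattice : ∀ f g, Measurable f → Measurable g →
    (∀ᵐ x ∂(volume.restrict Q), |f x| ≤ |g x|) → N f ≤ N g
  definite : ∀ f, Measurable f → N f = 0 → ∀ᵐ x ∂(volume.restrict Q), f x = 0
  homog : ∀ (a : ℝ) f, Measurable f → N (fun x => a * f x) = ‖a‖ₑ * N f
  quasi : ∃ K : ℝ≥0, ∀ f g, Measurable f → Measurable g →
    N (fun x => f x + g x) ≤ K * (N f + N g)
  complete : ∀ u : ℕ → (Fin n → ℝ) → ℝ, (∀ k, Measurable (u k)) → (∀ k, N (u k) ≠ ∞) →
    (∀ η > 0, ∃ M, ∀ j ≥ M, ∀ k ≥ M, N (fun x => u j x - u k x) < η) →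
    ∃ g, Measurable g ∧ N g ≠ ∞ ∧ Tendsto (fun k => N (fun x => u k x - g x)) atTop (𝓝 0)
  saturated : ∃ f, Measurable f ∧ N f ≠ ∞ ∧ ∀ᵐ x ∂(volume.restrict Q), 0 < f x
  fatou : ∀ (u : ℕ → (Fin n → ℝ) → ℝ) (f : (Fin n → ℝ) → ℝ), (∀ k, Measurable (u k)) →
    Measurable f → (∀ᵐ x ∂(volume.restrict Q), (∀ k, 0 ≤ u k x) ∧ Monotone (fun k => u k x) ∧
      Tendsto (fun k => u k x) atTop (𝓝 (f x))) → N f = ⨆ k, N (u k)

noncomputable def NN {n : ℕ} (Q E : Set (Fin n → ℝ)) (a b e : ℝ≥0∞) (g : (Fin n → ℝ) → ℝ) : ℝ≥0∞ :=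
  min (a * ∫⁻ x in E, ‖g x‖ₑ) (b * ∫⁻ x in Q, ‖g x‖ₑ) + e * ∫⁻ x in Q, ‖g x‖ₑ

lemma qbfs {n : ℕ} {Q E : Set (Fin n → ℝ)} (hE : E ⊆ Q) (hQ : volume Q ≠ ∞) {a b e : ℝ≥0∞}
    (ha : a ≠ ∞) (hb : b ≠ ∞) (he : e ≠ ∞) (he0 : e ≠ 0) : IsQBFS Q (NN Q E a b e) := by
  have up : ∀ g, NN Q E a b e g ≤ (b + e) * ∫⁻ x in Q, ‖g x‖ₑ := fun g => by
    rw [add_mul]; exact add_le_add (min_le_right _ _) le_rfl
  have lo : ∀ g, ∫⁻ x in Q, ‖g x‖ₑ ≤ e⁻¹ * NN Q E a b e g := fun g => by
    rw [← ENNReal.mul_le_iff_le_inv he0 he]; exact le_add_self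
  have hbe : b + e ≠ ∞ := ENNReal.add_ne_top.2 ⟨hb, he⟩
  have hei : e⁻¹ ≠ ∞ := ENNReal.inv_ne_top.2 he0
  have lat : ∀ f g : (Fin n → ℝ) → ℝ, (∀ᵐ x ∂(volume.restrict Q), |f x| ≤ |g x|) →
      NN Q E a b e f ≤ NN Q E a b e g := by
    intro f g h
    have h' : ∀ᵐ x ∂(volume.restrict Q), ‖f x‖ₑ ≤ ‖g x‖ₑ := h.mono fun x hx => by
      rw [← ofReal_norm, ← ofReal_norm]; exact ENNReal.ofReal_le_ofReal hx
    have h1 := lintegral_mono_ae h'
    have h2 := lintegral_mono_ae (ae_restrict_of_ae_restrict_of_subset hE h')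
    unfold NN; gcongr
  refine ⟨fun f g _ _ h => lat f g h, fun f hf h => ?_, fun c f _ => ?_,
    ⟨((b + e) * e⁻¹).toNNReal, fun f g hf _ => ?_⟩, fun u hu hfin hc => ?_,
    ⟨fun _ => 1, measurable_const, ne_top_of_le_ne_top (ENNReal.mul_ne_top hbe (by simpa using hQ))
      (up _), Eventually.of_forall fun _ => one_pos⟩, fun u f hu hf h => ?_⟩
  · have := lo f
    rw [h, mul_zero, nonpos_iff_eq_zero, lintegral_eq_zero_iff hf.enorm] at this
    exact this.mono fun x hx => by simpa using hx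
  · simp only [NN, enorm_mul, lintegral_const_mul' _ _ (enorm_ne_top (x := c))]
    rw [mul_add, mul_min, mul_left_comm a, mul_left_comm b, mul_left_comm e]
  · rw [ENNReal.coe_toNNReal (ENNReal.mul_ne_top hbe hei), mul_assoc, mul_add]
    refine (up _).trans (mul_le_mul_right ?_ _)
    refine (lintegral_mono fun x => enorm_add_le _ _).trans ?_
    rw [lintegral_add_left hf.enorm]
    exact add_le_add (lo f) (lo g)
  · have hm : ∀ k, MemLp (u k) 1 (volume.restrict Q) := fun k =>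
      ⟨(hu k).aestronglyMeasurable, by
        rw [eLpNorm_one_eq_lintegral_enorm]
        exact (lo _).trans_lt (ENNReal.mul_ne_top hei (hfin k)).lt_top⟩
    have hcs : CauchySeq fun k => (hm k).toLp (u k) := by
      rw [EMetric.cauchySeq_iff]
      intro η hη
      obtain ⟨M, hM⟩ := hc (e * η) (ENNReal.mul_pos he0 hη.ne')
      refine ⟨M, fun j hj k hk => ?_⟩
      rw [Lp.edist_toLp_toLp, eLpNorm_one_eq_lintegral_enorm]
      exact (ENNReal.mul_lt_mul_iff_right he0 he).1 (lt_of_le_of_lt le_add_self (hM j hj k hk))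
    obtain ⟨G, hG⟩ := cauchySeq_tendsto_of_complete hcs
    have hG2 := (Lp.tendsto_Lp_iff_tendsto_eLpNorm' _ G).1 hG
    refine ⟨G, (Lp.stronglyMeasurable G).measurable, ne_top_of_le_ne_top (ENNReal.mul_ne_top hbe ?_)
      (up _), ?_⟩
    · rw [← eLpNorm_one_eq_lintegral_enorm]; exact Lp.eLpNorm_ne_top G
    · have t := ENNReal.Tendsto.const_mul (a := b + e) hG2 (Or.inr hbe)
      rw [mul_zero] at t
      refine tendsto_of_tendsto_of_tendsto_of_le_of_le tendsto_const_nhds t (fun _ => zero_le)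
        fun k => (up _).trans (le_of_eq ?_)
      rw [eLpNorm_congr_ae ((hm k).coeFn_toLp.sub (EventuallyEq.refl _ _)),
        eLpNorm_one_eq_lintegral_enorm]
      rfl
  · have h' : ∀ᵐ x ∂(volume.restrict Q), Monotone (fun k => ‖u k x‖ₑ) ∧
        Tendsto (fun k => ‖u k x‖ₑ) atTop (𝓝 ‖f x‖ₑ) := h.mono fun x hx =>
      ⟨fun i j hij => by
        simp only [← ofReal_norm, Real.norm_of_nonneg (hx.1 _)]
        exact ENNReal.ofReal_le_ofReal (hx.2.1 hij), hx.2.2.enorm⟩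
    have h2 := ae_restrict_of_ae_restrict_of_subset hE h'
    have t1 := lintegral_tendsto_of_tendsto_of_monotone (fun k => (hu k).enorm.aemeasurable)
      (h'.mono fun _ h => h.1) (h'.mono fun _ h => h.2)
    have t2 := lintegral_tendsto_of_tendsto_of_monotone (fun k => (hu k).enorm.aemeasurable)
      (h2.mono fun _ h => h.1) (h2.mono fun _ h => h.2)
    have t3 : Tendsto (fun k => NN Q E a b e (u k)) atTop (𝓝 (NN Q E a b e f)) :=
      ((ENNReal.Tendsto.const_mul t2 (Or.inr ha)).min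
        (ENNReal.Tendsto.const_mul t1 (Or.inr hb))).add (ENNReal.Tendsto.const_mul t1 (Or.inr he))
    refine le_antisymm (le_of_tendsto' t3 fun k => le_iSup (fun k => NN Q E a b e (u k)) k)
      (iSup_le fun k => lat _ _ (h.mono fun x hx => ?_))
    rw [abs_of_nonneg (hx.1 k)]
    exact (hx.2.1.ge_of_tendsto hx.2.2 k).trans (le_abs_self _)

lemma cube_eq {n : ℕ} (z : Fin n → ℝ) {r : ℝ} (hr : 0 < r) : cube z r = Metric.closedBall z r := by
  ext x
  rw [Metric.mem_closedBall, dist_pi_le_iff hr.le]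
  rfl

open Pool.Agent.H56.Bm1 Metric in
theorem result (n : ℕ) (hn : 1 ≤ n) :
    ∃ ρ : (Fin n → ℝ) → ℝ → ((Fin n → ℝ) → ℝ) → ℝ≥0∞,
      (∀ z r, 0 < r → IsQBFS (cube z r) (ρ z r)) ∧
      (∀ z r, 0 < r → 1 ≤ ρ z r (fun _ => 1) ∧ ρ z r (fun _ => 1) ≤ 2) ∧
      (∀ f, bmoX ρ f ≤ 2 * bmo f) ∧
      ∃ f : (Fin n → ℝ) → ℝ, Measurable f ∧ LocallyIntegrable f ∧ bmoX ρ f ≤ 2 ∧ bmo f = ∞ := by
  let i : Fin n := ⟨0, hn⟩
  have hl : LocallyIntegrable (fun x : Fin n → ℝ => x i) := (continuous_apply i).locallyIntegrable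
  have hx0 : ∀ (z x : Fin n → ℝ) r, x ∈ closedBall z r → |x i - z i| ≤ r := fun z x r hx =>
    (dist_le_pi_dist x z i).trans hx
  have bd : ∀ (z : Fin n → ℝ) r (d L : ℝ), (∀ x ∈ closedBall z r, |x i - d| ≤ L) →
      ∫⁻ x in closedBall z r, ‖x i - d‖ₑ ≤ ENNReal.ofReal L * volume (closedBall z r) := by
    intro z r d L h
    rw [← setLIntegral_const]
    refine setLIntegral_mono' measurableSet_closedBall fun x hx => ?_
    rw [← ofReal_norm]; exact ENNReal.ofReal_le_ofReal (h x hx)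
  have hav : ∀ (z : Fin n → ℝ) r, 0 < r → |(⨍ y in closedBall z r, y i) - z i| ≤ r := by
    intro z r hr
    have := (av_le (vol_ne z hr).1 (vol_ne z hr).2
      (hl.integrableOn_isCompact (isCompact_closedBall z r)) (z i)).trans (bd z r _ r (hx0 z · r))
    rwa [ENNReal.mul_le_mul_iff_left (vol_ne z hr).1 (vol_ne z hr).2, ← ofReal_norm,
      ENNReal.ofReal_le_ofReal_iff hr.le] at this
  have hE : ∀ (z : Fin n → ℝ) r, 0 < r → ∃ w s, 0 < s ∧ closedBall w s ⊆ closedBall z r ∧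
      ∀ x ∈ closedBall w s, |x i - ⨍ y in closedBall z r, y i| ≤ 1 := by
    intro z r hr
    have h1 := hav z r hr
    generalize (⨍ y in closedBall z r, y i) = d at h1
    set t : ℝ := 1 / (2 * r + 1) with ht
    have t0 : 0 < t := by positivity
    have t1 : t * (2 * r + 1) = 1 := by rw [ht]; field_simp
    have t2 : t ≤ 1 := by nlinarith
    refine ⟨fun j => z j + (1 - t) * (d - z i), t * r, by positivity,
      closedBall_subset_closedBall' ?_, fun x hx => ?_⟩
    · have : dist (fun j => z j + (1 - t) * (d - z i)) z ≤ (1 - t) * r := by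
        rw [dist_pi_le_iff (by nlinarith)]
        intro j
        rw [Real.dist_eq, add_sub_cancel_left, abs_mul, abs_of_nonneg (by linarith)]
        exact mul_le_mul_of_nonneg_left h1 (by linarith)
      linarith
    · have a1 := abs_le.1 (hx0 _ x _ hx)
      have a2 := abs_le.1 h1
      rw [abs_le]; constructor <;> nlinarith [a1.1, a1.2, a2.1, a2.2]
  choose! w s hs using hE
  have e1 : ∀ r : ℝ, 0 < r → ENNReal.ofReal (1 / (2 * r + 1)) ≤ 1 := fun r hr => by
    rw [ENNReal.ofReal_le_one, div_le_one (by positivity)]; linarith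
  refine ⟨fun z r => NN (closedBall z r) (closedBall (w z r) (s z r))
    (volume (closedBall (w z r) (s z r)))⁻¹ (volume (closedBall z r))⁻¹
    (ENNReal.ofReal (1 / (2 * r + 1)) * (volume (closedBall z r))⁻¹), fun z r hr => ?_,
    fun z r hr => ?_, fun f => ?_, fun x => x i, measurable_pi_apply i, hl, ?_, ?_⟩
  · rw [cube_eq z hr]
    exact qbfs (hs z r hr).2.1 (vol_ne z hr).2 (ENNReal.inv_ne_top.2 (vol_ne _ (hs z r hr).1).1)
      (ENNReal.inv_ne_top.2 (vol_ne z hr).1)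
      (ENNReal.mul_ne_top ENNReal.ofReal_ne_top (ENNReal.inv_ne_top.2 (vol_ne z hr).1))
      (mul_ne_zero (by simp only [ne_eq, ENNReal.ofReal_eq_zero, not_le]; positivity)
        (ENNReal.inv_ne_zero.2 (vol_ne z hr).2))
  · simp only [NN, enorm_one, setLIntegral_const, one_mul, mul_assoc,
      ENNReal.inv_mul_cancel (vol_ne z hr).1 (vol_ne z hr).2,
      ENNReal.inv_mul_cancel (vol_ne _ (hs z r hr).1).1 (vol_ne _ (hs z r hr).1).2, min_self, mul_one]
    exact ⟨le_self_add, (add_le_add le_rfl (e1 r hr)).trans one_add_one_eq_two.le⟩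
  · refine iSup_le fun z => iSup_le fun r => iSup_le fun hr => ?_
    have hb : (∫⁻ x in cube z r, ‖f x - ⨍ y in cube z r, f y‖ₑ) / volume (cube z r) ≤ bmo f :=
      le_iSup_of_le z (le_iSup_of_le r (le_iSup_of_le hr le_rfl))
    refine le_trans ?_ (mul_le_mul_right hb _)
    rw [cube_eq z hr, ENNReal.div_eq_inv_mul, two_mul (_ : ℝ≥0∞)]
    simp only [NN]
    rw [mul_assoc]
    exact add_le_add (min_le_right _ _) (mul_le_of_le_one_left' (e1 r hr))
  · refine iSup_le fun z => iSup_le fun r => iSup_le fun hr => ?_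
    rw [cube_eq z hr]
    simp only [NN]
    refine (add_le_add ((min_le_left _ _).trans ?_) ?_).trans one_add_one_eq_two.le
    · refine (mul_le_mul_right (bd _ _ _ 1 (hs z r hr).2.2) _).trans (le_of_eq ?_)
      rw [ENNReal.ofReal_one, one_mul,
        ENNReal.inv_mul_cancel (vol_ne _ (hs z r hr).1).1 (vol_ne _ (hs z r hr).1).2]
    · refine (mul_le_mul_right (bd z r _ (2 * r + 1) fun x hx => ?_) _).trans (le_of_eq ?_)
      · have a1 := abs_le.1 (hx0 _ x _ hx)
        have a2 := abs_le.1 (hav z r hr)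
        rw [abs_le]; constructor <;> linarith [a1.1, a1.2, a2.1, a2.2]
      · rw [mul_mul_mul_comm, ENNReal.inv_mul_cancel (vol_ne z hr).1 (vol_ne z hr).2,
          ← ENNReal.ofReal_mul (by positivity), one_div_mul_cancel (by positivity)]
        simp
  · refine ENNReal.eq_top_of_forall_nnreal_le fun c => ?_
    set r : ℝ := 4 ^ n * (c + 1) with hr'
    have hr : 0 < r := by positivity
    have hr4 : 0 < 4 * r := by positivity
    refine le_iSup_of_le 0 (le_iSup_of_le (4 * r) (le_iSup_of_le hr4 ?_))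
    rw [cube_eq 0 hr4]
    generalize (⨍ y in closedBall (0 : Fin n → ℝ) (4 * r), y i) = d
    obtain ⟨p, p1, p2⟩ : ∃ p : ℝ, |p| ≤ 2 * r ∧ 2 * r ≤ |p - d| := by
      rcases le_total d 0 with h | h
      · exact ⟨2 * r, by rw [abs_of_pos (by positivity)], by linarith [le_abs_self (2 * r - d)]⟩
      · exact ⟨-(2 * r), by rw [abs_neg, abs_of_pos (by positivity)],
          by linarith [neg_abs_le (-(2 * r) - d)]⟩
    have sub : closedBall (fun _ : Fin n => p) r ⊆ closedBall 0 (4 * r) := by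
      refine closedBall_subset_closedBall' ?_
      have : dist (fun _ : Fin n => p) 0 ≤ 2 * r := by
        rw [dist_pi_le_iff (by positivity)]
        intro j; simpa [Real.dist_eq] using p1
      linarith
    have v4 := vol_mul (0 : Fin n → ℝ) (fun _ => p) hr.le 4
    simp only [Nat.cast_ofNat] at v4
    rw [ENNReal.le_div_iff_mul_le (Or.inl (vol_ne 0 hr4).1) (Or.inl (vol_ne 0 hr4).2), v4,
      ← mul_assoc]
    refine le_trans ?_ (lintegral_mono_set sub)
    rw [← setLIntegral_const]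
    refine setLIntegral_mono' measurableSet_closedBall fun x hx => ?_
    have a1 := abs_le.1 (hx0 _ x _ hx)
    have a2 : r ≤ |x i - d| := by
      have := abs_sub_le p (x i) d
      rw [abs_sub_comm p (x i)] at this
      linarith [hx0 _ x _ hx]
    rw [← ofReal_norm, show (4 : ℝ≥0∞) ^ n = ENNReal.ofReal (4 ^ n) by
      rw [ENNReal.ofReal_pow (by norm_num)]; simp, ← ENNReal.ofReal_coe_nnreal,
      ← ENNReal.ofReal_mul (NNReal.coe_nonneg c)]
    refine ENNReal.ofReal_le_ofReal (le_trans ?_ a2)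
    have : (0 : ℝ) < 4 ^ n := by positivity
    rw [hr']; nlinarith

end Pool.Agent.Results.MP_ea8870_an.NonUniform
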