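import Pool.Agent.H56.Bm2
namespace Pool.Agent.Results.MP_ea8870_an.Reverse
open MeasureTheory Set
open scoped ENNReal NNReal

/-- The closed cube with centre `z` and side `2 r`, sides parallel to the axes. -/
def cube {n : ℕ} (z : Fin n → ℝ) (r : ℝ) : Set (Fin n → ℝ) := {x | ∀ i, |x i - z i| ≤ r}

/-- The classical John-Nirenberg norm. -/
noncomputable def bmo {n : ℕ} (f : (Fin n → ℝ) → ℝ) : ℝ≥0∞ :=
  ⨆ (z : Fin n → ℝ) (r : ℝ) (_ : 0 < r),
    (∫⁻ x in cube z r, ‖f x - ⨍ y in cube z r, f y‖ₑ) / volume (cube z r)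

/-- `‖f‖_{BMO_X}`, where `ρ z r g` is the quasi-norm of `g` in `X_Q`, `Q = cube z r`
(and `∞` when `g` is not in `X_Q`). -/
noncomputable def bmoX {n : ℕ} (ρ : (Fin n → ℝ) → ℝ → ((Fin n → ℝ) → ℝ) → ℝ≥0∞)
    (f : (Fin n → ℝ) → ℝ) : ℝ≥0∞ :=
  ⨆ (z : Fin n → ℝ) (r : ℝ) (_ : 0 < r), ρ z r (fun x => f x - ⨍ y in cube z r, f y)

/-- The properties of the family `X_Q` that are used: order ideal with a lattice quasi-norm,
one quasi-triangle constant `K` for all cubes, and `‖χ_Q‖ ≥ c₀` for all cubes. -/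
structure Family {n : ℕ} (ρ : (Fin n → ℝ) → ℝ → ((Fin n → ℝ) → ℝ) → ℝ≥0∞) (K c₀ : ℝ≥0) :
    Prop where
  lattice : ∀ z r, 0 < r → ∀ f g, Measurable f → Measurable g →
    (∀ᵐ x ∂(volume.restrict (cube z r)), |f x| ≤ |g x|) → ρ z r f ≤ ρ z r g
  homog : ∀ z r, 0 < r → ∀ (a : ℝ) f, Measurable f → ρ z r f ≠ ∞ →
    ρ z r (fun x => a * f x) = ‖a‖ₑ * ρ z r f
  quasi : ∀ z r, 0 < r → ∀ f g, Measurable f → Measurable g → ρ z r f ≠ ∞ → ρ z r g ≠ ∞ →
    ρ z r (fun x => f x + g x) ≤ K * (ρ z r f + ρ z r g)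
  lower : ∀ z r, 0 < r → (c₀ : ℝ≥0∞) ≤ ρ z r (fun _ => 1)

lemma cube_eq {n : ℕ} (z : Fin n → ℝ) {r : ℝ} (hr : 0 < r) : cube z r = Metric.closedBall z r := by
  ext x
  rw [Metric.mem_closedBall, dist_pi_le_iff hr.le]
  rfl

open Pool.Agent.H56.Bm1 Pool.Agent.H56.Bm2 Metric in
theorem result (n : ℕ) (ρ : (Fin n → ℝ) → ℝ → ((Fin n → ℝ) → ℝ) → ℝ≥0∞) (K c₀ : ℝ≥0)
    (hc : 0 < c₀) (hρ : Family ρ K c₀)
    (hemb : ∃ C : ℝ≥0, ∀ f, Measurable f → LocallyIntegrable f → bmo f ≠ ∞ →
      bmoX ρ f ≤ C * bmo f) :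
    ∃ C : ℝ≥0, ∀ f, Measurable f → LocallyIntegrable f → bmoX ρ f ≠ ∞ →
      bmo f ≤ C * bmoX ρ f := by
  obtain ⟨C, hC⟩ := hemb
  have hc' : (0 : ℝ) < c₀ := hc
  have hK : (0 : ℝ) ≤ K := K.2
  have hC0 : (0 : ℝ) ≤ C := C.2
  have hbmo : ∀ (f : (Fin n → ℝ) → ℝ) (L : ℝ≥0∞), (∀ z r, 0 < r →
      ∫⁻ x in closedBall z r, ‖f x - ⨍ y in closedBall z r, f y‖ₑ ≤ L * volume (closedBall z r)) →
      bmo f ≤ L := by
    intro f L h
    refine iSup_le fun z => iSup_le fun r => iSup_le fun hr => ?_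
    rw [cube_eq z hr, ENNReal.div_le_iff (vol_ne z hr).1 (vol_ne z hr).2]
    exact h z r hr
  have hX : ∀ f z r, 0 < r → ρ z r (fun x => f x - ⨍ y in closedBall z r, f y) ≤ bmoX ρ f := by
    intro f z r hr
    rw [← cube_eq z hr]
    exact le_iSup_of_le z (le_iSup_of_le r (le_iSup_of_le hr le_rfl))
  obtain ⟨N, hN⟩ := exists_nat_gt (4 * 15 ^ n + 4 * K * (C * (8 * 15 ^ n)) / c₀ : ℝ)
  set M : ℝ := N - 4 * 15 ^ n with hM
  have hM1 : 4 * K * (C * (8 * 15 ^ n)) / c₀ < M := by linarith
  have hM0 : 0 < M := lt_of_le_of_lt (by positivity) hM1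
  have small : ∀ z r, 0 < r → ∀ E, MeasurableSet E →
      2 ^ N * volume E ≤ volume (closedBall z r) →
      ρ z r (indicator E 1) ≤ ENNReal.ofReal (M⁻¹ * (C * (8 * 15 ^ n))) := by
    intro z r hr E hE h
    obtain ⟨g, g1, g2, g3, g4⟩ := stepA hE hr h
    have b1 := hbmo g _ g3
    have b0 : (8 * 15 ^ n : ℝ≥0∞) = ENNReal.ofReal (8 * 15 ^ n) := by
      rw [ENNReal.ofReal_mul (by norm_num), ENNReal.ofReal_pow (by norm_num)]; simp
    rw [b0] at b1
    have b2 := ((hX g z r hr).trans (hC g g1 g2 (ne_top_of_le_ne_top ENNReal.ofReal_ne_top b1))).trans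
      (mul_le_mul_right b1 _)
    rw [← ENNReal.ofReal_coe_nnreal, ← ENNReal.ofReal_mul hC0] at b2
    refine (hρ.lattice z r hr _ (fun x => M⁻¹ * (g x - ⨍ y in closedBall z r, g y))
      (measurable_one.indicator hE) (by fun_prop) (Filter.Eventually.of_forall fun x => ?_)).trans ?_
    · by_cases hx : x ∈ E
      · rw [indicator_of_mem hx, Pi.one_apply, abs_one]
        refine le_trans ?_ (le_abs_self _)
        rw [← div_eq_inv_mul, le_div_iff₀ hM0, one_mul]
        exact g4 x hx
      · rw [indicator_of_notMem hx, abs_zero]; exact abs_nonneg _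
    · rw [hρ.homog z r hr _ _ (by fun_prop) (ne_top_of_le_ne_top ENNReal.ofReal_ne_top b2),
        ENNReal.ofReal_mul (by positivity), ← ofReal_norm, Real.norm_of_nonneg (by positivity)]
      exact mul_le_mul_right b2 _
  set D : ℝ := 2 * (3 * (4 * (K + 1) / c₀)) * (1 + 5 ^ n * 2 ^ N) with hD
  have hD0 : 0 < D := by positivity
  have main : ∀ f, Measurable f → LocallyIntegrable f → ∀ s : ℝ, 0 < s →
      bmoX ρ f ≤ ENNReal.ofReal s → bmo f ≤ ENNReal.ofReal (D * s) := by
    intro f hm hf s hs hb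
    set lam : ℝ := 4 * (K + 1) / c₀ * s with hlam
    have hl : 0 < lam := by positivity
    have H : ∀ z r, 0 < r → volume (closedBall z r) ≤
        2 ^ N * volume (closedBall z r ∩ {x | |f x - ⨍ y in closedBall z r, f y| ≤ lam}) := by
      intro z r hr
      by_contra hn
      have a0 := (hX f z r hr).trans hb
      generalize (⨍ y in closedBall z r, f y) = d at hn a0
      have mE : MeasurableSet (closedBall z r ∩ {x | |f x - d| ≤ lam}) :=
        measurableSet_closedBall.inter (measurableSet_le (by fun_prop) measurable_const)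
      have a1 := small z r hr _ mE (not_le.1 hn).le
      have a2 : ρ z r (fun x => lam⁻¹ * |f x - d|) ≤ ENNReal.ofReal (lam⁻¹ * s) := by
        refine (hρ.lattice z r hr _ (fun x => lam⁻¹ * (f x - d)) (by fun_prop) (by fun_prop)
          (Filter.Eventually.of_forall fun x => by simp only [abs_mul, abs_abs, le_refl])).trans ?_
        rw [hρ.homog z r hr _ _ (by fun_prop) (ne_top_of_le_ne_top ENNReal.ofReal_ne_top a0),
          ENNReal.ofReal_mul (by positivity), ← ofReal_norm, Real.norm_of_nonneg (by positivity)]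
        exact mul_le_mul_right a0 _
      have a3 := hρ.quasi z r hr _ _ (measurable_one.indicator mE) (by fun_prop)
        (ne_top_of_le_ne_top ENNReal.ofReal_ne_top a1) (ne_top_of_le_ne_top ENNReal.ofReal_ne_top a2)
      have a4 := (hρ.lower z r hr).trans (hρ.lattice z r hr (fun _ => 1)
        (fun x => indicator (closedBall z r ∩ {x | |f x - d| ≤ lam}) 1 x + lam⁻¹ * |f x - d|)
        measurable_const ((measurable_one.indicator mE).add (by fun_prop)) (by
          rw [cube_eq z hr]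
          refine (ae_restrict_mem measurableSet_closedBall).mono fun x hx => ?_
          rw [abs_one]
          refine le_trans ?_ (le_abs_self _)
          by_cases h : |f x - d| ≤ lam
          · rw [indicator_of_mem (show x ∈ closedBall z r ∩ {x | |f x - d| ≤ lam} from ⟨hx, h⟩)]
            have : 0 ≤ lam⁻¹ * |f x - d| := by positivity
            simp only [Pi.one_apply]; linarith
          · rw [indicator_of_notMem (fun h2 => h h2.2), zero_add, ← div_eq_inv_mul, le_div_iff₀ hl]
            linarith))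
      have a5 := (a4.trans a3).trans (mul_le_mul_right (add_le_add a1 a2) _)
      rw [← ENNReal.ofReal_add (by positivity) (by positivity), ← ENNReal.ofReal_coe_nnreal,
        ← ENNReal.ofReal_coe_nnreal (p := K), ← ENNReal.ofReal_mul hK,
        ENNReal.ofReal_le_ofReal_iff (by positivity)] at a5
      have a6 : K * (M⁻¹ * (C * (8 * 15 ^ n))) ≤ c₀ / 4 := by
        rw [div_lt_iff₀ hc'] at hM1
        rw [← div_eq_inv_mul, ← mul_div_assoc, div_le_iff₀ hM0]
        linarith
      have a7 : K * (lam⁻¹ * s) ≤ c₀ / 4 := by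
        have : lam⁻¹ * s = c₀ / (4 * (K + 1)) := by rw [hlam]; field_simp
        rw [this, ← mul_div_assoc, div_le_iff₀ (by positivity)]
        nlinarith
      linarith
    refine hbmo f _ fun z r hr => ?_
    have s1 := stepB hm hf hl _ H z hr
    have s2 := stepB (f := fun x => -f x) hm.neg hf.neg hl (2 ^ N) (fun z r hr => by
      simpa only [average_neg, neg_sub_neg, abs_sub_comm] using H z r hr) z hr
    simp only [average_neg] at s2
    generalize (⨍ y in closedBall z r, f y) = d at s1 s2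
    calc _ ≤ ∫⁻ x in closedBall z r, (ENNReal.ofReal (f x - d) + ENNReal.ofReal (-f x - -d)) := by
          refine lintegral_mono fun x => ?_
          rw [← ofReal_norm, Real.norm_eq_abs]
          rcases abs_cases (f x - d) with h | h
          · rw [h.1]; exact le_self_add
          · rw [h.1, show -(f x - d) = -f x - -d by ring]; exact le_add_self
      _ ≤ _ := by
          rw [lintegral_add_left (by fun_prop)]
          refine (add_le_add s1 s2).trans (le_of_eq ?_)
          rw [← two_mul, ← mul_assoc]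
          congr 1
          have e1 : ENNReal.ofReal (1 + 5 ^ n * 2 ^ N) = 1 + 5 ^ n * 2 ^ N := by
            rw [ENNReal.ofReal_add (by norm_num) (by positivity), ENNReal.ofReal_mul (by positivity),
              ENNReal.ofReal_pow (by norm_num), ENNReal.ofReal_pow (by norm_num)]
            simp
          rw [show D * s = 2 * (3 * lam * (1 + 5 ^ n * 2 ^ N)) by rw [hD, hlam]; ring,
            ENNReal.ofReal_mul (p := 2) (by norm_num),
            ENNReal.ofReal_mul (p := 3 * lam) (q := 1 + 5 ^ n * 2 ^ N) (by positivity), e1]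
          simp
  refine ⟨D.toNNReal, fun f hm hf hb => ?_⟩
  refine ENNReal.le_of_forall_pos_le_add fun ε hε _ => ?_
  have hε' : (0 : ℝ) < ε := hε
  have := main f hm hf ((bmoX ρ f).toReal + ε / D) (by positivity) (by
    conv_lhs => rw [← ENNReal.ofReal_toReal hb]
    exact ENNReal.ofReal_le_ofReal (le_add_of_nonneg_right (by positivity)))
  rwa [mul_add, mul_div_cancel₀ _ hD0.ne', ENNReal.ofReal_add (by positivity) hε'.le,
    ENNReal.ofReal_mul hD0.le, ENNReal.ofReal_toReal hb, ENNReal.ofReal_coe_nnreal] at this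

end Pool.Agent.Results.MP_ea8870_an.Reverse
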