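import Mathlib
namespace Pool.Agent.Results.MP_ea8870_an.StarFails
open MeasureTheory Set
open scoped ENNReal

/-- The cube with lower corner `a` and side length `l`, sides parallel to the axes. -/
def cube {n : ℕ} (a : Fin n → ℝ) (l : ℝ) : Set (Fin n → ℝ) :=
  Set.pi univ (fun i => Ico (a i) (a i + l))

/-- The weighted `L¹` norm `(1/|Q|) ∫_Q |g| w`. -/
noncomputable def wnorm {n : ℕ} (Q : Set (Fin n → ℝ)) (w g : (Fin n → ℝ) → ℝ) : ℝ≥0∞ :=
  (∫⁻ x in Q, ‖g x‖ₑ * ENNReal.ofReal (w x)) / volume Q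

/-- `‖f‖_{BMO_X}` for the family `X_Q = L¹(Q, w_Q dx / |Q|)`. -/
noncomputable def bmoX {n : ℕ} (w : (Fin n → ℝ) → ℝ → (Fin n → ℝ) → ℝ) (f : (Fin n → ℝ) → ℝ) :
    ℝ≥0∞ :=
  ⨆ (a : Fin n → ℝ) (l : ℝ) (_ : 0 < l),
    wnorm (cube a l) (w a l) (fun x => f x - ⨍ y in cube a l, f y)

/-- `‖f‖_{BMO*_X}` for the same family. -/
noncomputable def bmoStarX {n : ℕ} (w : (Fin n → ℝ) → ℝ → (Fin n → ℝ) → ℝ)
    (f : (Fin n → ℝ) → ℝ) : ℝ≥0∞ :=
  ⨆ (a : Fin n → ℝ) (l : ℝ) (_ : 0 < l), ⨅ c : ℝ, wnorm (cube a l) (w a l) (fun x => f x - c)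

/-- The classical John-Nirenberg norm: all weights equal to `1`. -/
noncomputable def bmo {n : ℕ} (f : (Fin n → ℝ) → ℝ) : ℝ≥0∞ := bmoX (fun _ _ _ => 1) f

noncomputable def ph (t : ℝ) : ℝ := if 0 < t then (2 : ℝ) ^ Int.log 2 t else 0

lemma ph_eq {t : ℝ} {j : ℤ} (h1 : (2 : ℝ) ^ j ≤ t) (h2 : t < (2 : ℝ) ^ (j + 1)) :
    ph t = 2 ^ j := by
  have ht : 0 < t := lt_of_lt_of_le (by positivity) h1
  have a1 := (Int.zpow_le_iff_le_log (b := 2) (by norm_num) ht).1 (by simpa using h1)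
  have a2 := (Int.lt_zpow_iff_log_lt (b := 2) (by norm_num) ht).1 (by simpa using h2)
  have : Int.log 2 t = j := by omega
  rw [ph, if_pos ht, this]

lemma ph_bd (t : ℝ) : 0 ≤ ph t ∧ ph t ≤ |t| := by
  unfold ph
  split_ifs with h
  · refine ⟨by positivity, ?_⟩
    rw [abs_of_pos h]
    simpa using Int.zpow_log_le_self (b := 2) (by norm_num) h
  · exact ⟨le_rfl, abs_nonneg _⟩

lemma ph_mono : Monotone ph := by
  intro s t h
  by_cases hs : 0 < s
  · rw [ph, ph, if_pos hs, if_pos (hs.trans_le h)]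
    exact zpow_le_zpow_right₀ (by norm_num) (Int.log_mono_right hs h)
  · rw [ph, if_neg hs]; exact (ph_bd t).1

lemma sub_int (a l : ℝ) (hl : 0 < l) :
    ∃ s c, a ≤ s ∧ s + l / 4 ≤ a + l ∧ |c| ≤ |a| + l ∧ ∀ t ∈ Ico s (s + l / 4), ph t = c := by
  have ha := abs_nonneg a
  have ha2 := le_abs_self a
  by_cases h0 : a + l / 4 ≤ 0
  · exact ⟨a, 0, le_rfl, by linarith, by simp; linarith, fun t ht => if_neg (by linarith [ht.2])⟩
  have hb : 0 < a + l := by linarith
  have p1 : (2 : ℝ) ^ Int.log 2 (a + l) ≤ a + l := by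
    simpa using Int.zpow_log_le_self (b := 2) (by norm_num) hb
  have p2 : a + l < (2 : ℝ) ^ (Int.log 2 (a + l) + 1) := by
    simpa using Int.lt_zpow_succ_log_self (b := 2) (by norm_num) (a + l)
  generalize Int.log 2 (a + l) = j at p1 p2
  have e1 : (2 : ℝ) ^ j = 2 * 2 ^ (j - 1) := by
    rw [zpow_sub_one₀ (by norm_num)]; ring
  have e2 : (0 : ℝ) < 2 ^ (j - 1) := by positivity
  by_cases h1 : (2 : ℝ) ^ j ≤ a + 3 * l / 4
  · refine ⟨a + 3 * l / 4, 2 ^ j, by linarith, by linarith, ?_, fun t ht =>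
      ph_eq (by linarith [ht.1]) (by linarith [ht.2])⟩
    rw [abs_of_pos (by positivity)]; linarith
  · refine ⟨2 ^ j - l / 4, 2 ^ (j - 1), by linarith, by linarith, ?_, fun t ht =>
      ph_eq (by linarith [ht.1]) (by rw [sub_add_cancel]; linarith [ht.2])⟩
    rw [abs_of_pos e2]; linarith

def slab {n : ℕ} (a : Fin (n + 1) → ℝ) (l s m : ℝ) : Set (Fin (n + 1) → ℝ) :=
  cube a l ∩ {x | x 0 ∈ Ico s (s + m)}

lemma meas_cube {n : ℕ} (a : Fin n → ℝ) (l : ℝ) : MeasurableSet (cube a l) :=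
  MeasurableSet.univ_pi fun _ => measurableSet_Ico

lemma meas_slab {n : ℕ} (a : Fin (n + 1) → ℝ) (l s m : ℝ) : MeasurableSet (slab a l s m) :=
  (meas_cube a l).inter ((measurable_pi_apply 0) measurableSet_Ico)

lemma vol_cube {n : ℕ} (a : Fin n → ℝ) (l : ℝ) : volume (cube a l) = ENNReal.ofReal l ^ n := by
  rw [cube, volume_pi_pi]; simp

lemma vol_slab {n : ℕ} (a : Fin (n + 1) → ℝ) {l s m : ℝ} (h1 : a 0 ≤ s) (h2 : s + m ≤ a 0 + l) :
    volume (slab a l s m) = ENNReal.ofReal m * ENNReal.ofReal l ^ n := by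
  have : slab a l s m = Set.pi univ
      (Fin.cons (α := fun _ => Set ℝ) (Ico s (s + m)) (fun i => Ico (a i.succ) (a i.succ + l))) := by
    ext x
    simp only [slab, cube, mem_inter_iff, mem_pi, mem_univ, true_imp_iff, Fin.forall_fin_succ,
      Fin.cons_zero, Fin.cons_succ, mem_ofPred_eq, mem_Ico]
    constructor
    · rintro ⟨⟨_, h⟩, k⟩; exact ⟨k, h⟩
    · rintro ⟨k, h⟩; exact ⟨⟨⟨by linarith [k.1], by linarith [k.2]⟩, h⟩, k⟩
  rw [this, volume_pi_pi, Fin.prod_univ_succ]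
  simp

lemma vol_frac {n : ℕ} (a : Fin (n + 1) → ℝ) {l s k : ℝ} (_hl : 0 < l) (hk : 0 ≤ k) (h1 : a 0 ≤ s)
    (h2 : s + k * l ≤ a 0 + l) :
    volume (slab a l s (k * l)) = ENNReal.ofReal k * volume (cube a l) := by
  rw [vol_slab a h1 h2, vol_cube, ENNReal.ofReal_mul hk, pow_succ']; ring

lemma vol_ne {n : ℕ} (a : Fin n → ℝ) {l : ℝ} (hl : 0 < l) :
    volume (cube a l) ≠ 0 ∧ volume (cube a l) ≠ ∞ := by
  rw [vol_cube]
  exact ⟨pow_ne_zero _ (by simpa using hl), ENNReal.pow_ne_top ENNReal.ofReal_ne_top⟩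

theorem result (n : ℕ) (hn : 1 ≤ n) :
    ∃ w : (Fin n → ℝ) → ℝ → (Fin n → ℝ) → ℝ,
      (∀ a l, Measurable (w a l) ∧ ∃ ε > 0, ∀ x, ε ≤ w a l x ∧ w a l x ≤ 1) ∧
      (∀ a l, 0 < l → 1 / 4 ≤ wnorm (cube a l) (w a l) (fun _ => 1) ∧
        wnorm (cube a l) (w a l) (fun _ => 1) ≤ 1) ∧
      (∀ f, bmoX w f ≤ bmo f) ∧
      ∃ f : (Fin n → ℝ) → ℝ, Measurable f ∧ LocallyIntegrable f ∧
        bmoStarX w f ≤ 1 ∧ bmo f = ∞ := by
  classical
  obtain ⟨n, rfl⟩ : ∃ m, n = m + 1 := ⟨n - 1, by omega⟩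
  choose! s c hs using sub_int
  have hε : ∀ t l : ℝ, 0 < 1 / (1 + 2 * (|t| + |l|)) ∧ 1 / (1 + 2 * (|t| + |l|)) ≤ 1 := by
    intro t l
    have : 0 ≤ |t| + |l| := by positivity
    exact ⟨by positivity, by rw [div_le_one (by positivity)]; linarith⟩
  let w : (Fin (n + 1) → ℝ) → ℝ → (Fin (n + 1) → ℝ) → ℝ := fun a l x =>
    if x ∈ slab a l (s (a 0) l) (1 / 4 * l) then 1 else 1 / (1 + 2 * (|a 0| + |l|))
  have hw : ∀ a l x, 1 / (1 + 2 * (|a 0| + |l|)) ≤ w a l x ∧ w a l x ≤ 1 := by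
    intro a l x
    simp only [w]
    split_ifs
    · exact ⟨(hε _ _).2, le_rfl⟩
    · exact ⟨le_rfl, (hε _ _).2⟩
  have hle : ∀ a l g, wnorm (cube a l) (w a l) g ≤ wnorm (cube a l) (fun _ => 1) g := by
    intro a l g
    refine ENNReal.div_le_div_right (lintegral_mono fun x => ?_) _
    exact mul_le_mul_right (ENNReal.ofReal_le_ofReal (hw a l x).2) _
  have hone : ∀ (a : Fin (n + 1) → ℝ) l, 0 < l → ∀ F : (Fin (n + 1) → ℝ) → ℝ≥0∞,
      (∀ x ∈ cube a l, F x ≤ 1) → (∫⁻ x in cube a l, F x) / volume (cube a l) ≤ 1 := by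
    intro a l hl F hF
    rw [ENNReal.div_le_iff (vol_ne a hl).1 (vol_ne a hl).2]
    exact (setLIntegral_mono' (meas_cube a l) hF).trans (by rw [setLIntegral_const])
  have hm : Measurable (fun x : Fin (n + 1) → ℝ => ph (x 0)) :=
    ph_mono.measurable.comp (measurable_pi_apply 0)
  refine ⟨w, fun a l => ⟨Measurable.ite (meas_slab _ _ _ _) measurable_const measurable_const,
    _, (hε (a 0) l).1, hw a l⟩, fun a l hl => ⟨?_, ?_⟩, fun f => ?_, fun x => ph (x 0), hm,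
    ?_, ?_, ?_⟩
  · obtain ⟨h1, h2, -, -⟩ := hs (a 0) l hl
    rw [wnorm, ENNReal.le_div_iff_mul_le (Or.inl (vol_ne a hl).1) (Or.inl (vol_ne a hl).2)]
    have := vol_frac a hl (k := 1 / 4) (by norm_num) h1 (by linarith)
    rw [show ENNReal.ofReal (1 / 4) = 1 / 4 by
      rw [ENNReal.ofReal_div_of_pos (by norm_num)]; simp] at this
    rw [← this]
    refine le_trans ?_ (lintegral_mono_set (inter_subset_left :
      slab a l (s (a 0) l) (1 / 4 * l) ⊆ cube a l))
    rw [← one_mul (volume _), ← setLIntegral_const]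
    refine setLIntegral_mono' (meas_slab _ _ _ _) fun x hx => ?_
    simp only [w, if_pos hx]; simp
  · refine hone a l hl _ fun x _ => ?_
    simpa using (hw a l x).2
  · exact iSup_mono fun a => iSup_mono fun l => iSup_mono fun _ => hle a l _
  · refine (Continuous.locallyIntegrable (f := fun x : Fin (n + 1) → ℝ => |x 0|)
      (by fun_prop)).mono hm.aestronglyMeasurable (Filter.Eventually.of_forall fun x => ?_)
    rw [Real.norm_eq_abs, Real.norm_eq_abs, abs_abs, abs_of_nonneg (ph_bd _).1]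
    exact (ph_bd _).2
  · refine iSup_le fun a => iSup_le fun l => iSup_le fun hl => iInf_le_of_le (c (a 0) l) ?_
    obtain ⟨h1, h2, h3, h4⟩ := hs (a 0) l hl
    refine hone a l hl _ fun x hx => ?_
    simp only [w]
    split_ifs with hx2
    · rw [h4 (x 0) (by have := hx2.2; rwa [show 1 / 4 * l = l / 4 by ring] at this)]
      simp
    · have hx0 := hx 0 (mem_univ _)
      have b1 : |x 0| ≤ |a 0| + l := by
        rw [abs_le]; constructor <;> linarith [hx0.1, hx0.2, le_abs_self (a 0), neg_abs_le (a 0)]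
      have b2 : |ph (x 0) - c (a 0) l| ≤ 2 * (|a 0| + |l|) := by
        have := abs_sub (ph (x 0)) (c (a 0) l)
        rw [abs_of_nonneg (ph_bd _).1] at this
        rw [abs_of_pos hl]; linarith [(ph_bd (x 0)).2]
      rw [← ofReal_norm, ← ENNReal.ofReal_mul (norm_nonneg _), ENNReal.ofReal_le_one,
        Real.norm_eq_abs, mul_one_div, div_le_one (by positivity)]
      linarith
  · refine ENNReal.eq_top_of_forall_nnreal_le fun r => ?_
    obtain ⟨j, hj⟩ := pow_unbounded_of_one_lt (2 * (r : ℝ)) (show (1 : ℝ) < 2 by norm_num)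
    set p : ℝ := 2 ^ (j : ℤ) with hp
    have hp0 : 0 < p := by positivity
    have hpr : 2 * (r : ℝ) < p := by rw [hp, zpow_natCast]; exact hj
    have q1 : (2 : ℝ) ^ ((j : ℤ) + 1) = 2 * p := by rw [zpow_add_one₀ (by norm_num)]; ring
    have q2 : (2 : ℝ) ^ ((j : ℤ) + 1 + 1) = 4 * p := by
      rw [zpow_add_one₀ (by norm_num), q1]; ring
    have hl : 0 < 2 * p := by positivity
    refine le_iSup_of_le (fun _ => p) (le_iSup_of_le (2 * p) (le_iSup_of_le hl ?_))
    set a : Fin (n + 1) → ℝ := fun _ => p with ha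
    generalize (⨍ y in cube a (2 * p), ph (y 0)) = d
    rw [wnorm, ENNReal.le_div_iff_mul_le (Or.inl (vol_ne a hl).1) (Or.inl (vol_ne a hl).2)]
    have v1 := vol_frac a hl (s := p) (k := 1 / 2) (by norm_num) le_rfl (by simp only [ha]; linarith)
    have v2 := vol_frac a hl (s := 2 * p) (k := 1 / 2) (by norm_num) (by simp only [ha]; linarith)
      (by simp only [ha]; linarith)
    have hd : Disjoint (slab a (2 * p) p (1 / 2 * (2 * p))) (slab a (2 * p) (2 * p) (1 / 2 * (2 * p))) := by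
      rw [Set.disjoint_left]
      intro x h1 h2
      linarith [h1.2.2, h2.2.1]
    refine le_trans ?_ (lintegral_mono_set (union_subset inter_subset_left inter_subset_left :
      slab a (2 * p) p (1 / 2 * (2 * p)) ∪ slab a (2 * p) (2 * p) (1 / 2 * (2 * p)) ⊆ _))
    rw [lintegral_union (meas_slab _ _ _ _) hd,
      setLIntegral_congr_fun (meas_slab _ _ _ _) (g := fun _ => ENNReal.ofReal |p - d|)
        (fun x hx => by
          simp only
          rw [ph_eq (j := j) hx.2.1 (by rw [q1]; linarith [hx.2.2]), ← ofReal_norm]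
          simp [hp]), setLIntegral_const,
      setLIntegral_congr_fun (meas_slab _ _ _ _) (g := fun _ => ENNReal.ofReal |2 * p - d|)
        (fun x hx => by
          simp only
          rw [ph_eq (j := j + 1) (by rw [q1]; exact hx.2.1) (by rw [q2]; linarith [hx.2.2]),
            ← ofReal_norm, q1]
          simp),
      setLIntegral_const, v1, v2, ← add_mul, ← mul_assoc,
      ← ENNReal.ofReal_add (abs_nonneg _) (abs_nonneg _), ← ENNReal.ofReal_mul (by positivity)]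
    refine mul_le_mul_left ?_ _
    rw [← ENNReal.ofReal_coe_nnreal]
    refine ENNReal.ofReal_le_ofReal ?_
    linarith [neg_abs_le (p - d), le_abs_self (2 * p - d)]

end Pool.Agent.Results.MP_ea8870_an.StarFails
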